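import Mathlib
import Pool.Agent.R335.RC.Final

set_option autoImplicit false

/-!
# The rainbow-cycle threshold `g(n)` is linear, hence subquadratic

`HasRainbowCycle c k` (in `Pool/Agent/R335/RC/Basic.lean`) says that the edge colouring `c` of
the complete graph on the vertex set `V` contains a rainbow `k`-cycle: `k ≥ 3` and there is an
injective cyclic sequence `f : ZMod k → V` whose `k` edges `s(f i, f (i + 1))` receive pairwise
distinct colours.
-/

namespace Pool.Agent.Results.MP_e07b63_co.LinearBound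

open R335.RC

/-- The defining property of the threshold: for every integer `m ≥ M`, every colouring of a
finite complete graph `K_N` (with any colours) that contains no rainbow `n`-cycle contains no
rainbow `m`-cycle. -/
def ThresholdProp (n M : ℕ) : Prop :=
  ∀ m : ℕ, M ≤ m → ∀ (N : ℕ) (C : Type) (c : Sym2 (Fin N) → C),
    ¬ HasRainbowCycle c n → ¬ HasRainbowCycle c m

/-- `g(n)`: the least `M` with the threshold property. -/
noncomputable def g (n : ℕ) : ℕ := sInf {M : ℕ | ThresholdProp n M}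

/-- Forbidding a rainbow `n`-cycle, `n ≥ 3` odd, forbids all rainbow cycles of length
`≥ 61 (n - 2)`. -/
theorem no_long {V C : Type} (c : Sym2 V → C) (n : ℕ) (hn : Odd n) (h3 : 3 ≤ n)
    (hc : ¬ HasRainbowCycle c n) (m : ℕ) (hm : 61 * (n - 2) ≤ m) : ¬ HasRainbowCycle c m := by
  obtain ⟨N, rfl⟩ : ∃ N, n = N + 2 := ⟨n - 2, by omega⟩
  have hodd : N % 2 = 1 := by
    obtain ⟨k, hk⟩ := hn
    omega
  by_cases h1 : 3 ≤ N
  · exact general_case h1 hodd (by omega) hc
  · have h2 : N = 1 := by omega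
    subst h2
    exact no_bad le_rfl hc m (by simp) (by omega)

theorem thresholdProp_linear (n : ℕ) (hn : Odd n) (h3 : 3 ≤ n) :
    ThresholdProp n (61 * (n - 2)) :=
  fun m hm _ _ c hc => no_long c n hn h3 hc m hm

/-- **Main result.**
(1) If a colouring (of any complete graph) has no rainbow `n`-cycle, `n ≥ 3` odd, then it has no
rainbow `m`-cycle for any `m ≥ 61 (n - 2)`.
(2) For odd `n ≥ 3` the number `g(n)` is the least element of the set defining it, and
`g(n) ≤ 61 (n - 2)`.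
(3) `g(n) = o(n ^ 2)` as `n → ∞` through the odd integers `n = 2k + 3`. -/
theorem result :
    (∀ n : ℕ, Odd n → 3 ≤ n → ∀ (V C : Type) (c : Sym2 V → C), ¬ HasRainbowCycle c n →
      ∀ m : ℕ, 61 * (n - 2) ≤ m → ¬ HasRainbowCycle c m) ∧
    (∀ n : ℕ, Odd n → 3 ≤ n →
      IsLeast {M : ℕ | ThresholdProp n M} (g n) ∧ g n ≤ 61 * (n - 2)) ∧
    (fun k : ℕ => (g (2 * k + 3) : ℝ)) =o[Filter.atTop]
      (fun k : ℕ => ((2 * k + 3 : ℕ) : ℝ) ^ 2) := by
  have h2 : ∀ n : ℕ, Odd n → 3 ≤ n → g n ≤ 61 * (n - 2) := fun n hn h3 =>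
    Nat.sInf_le (thresholdProp_linear n hn h3)
  refine ⟨fun n hn h3 V C c hc m hm => no_long c n hn h3 hc m hm, fun n hn h3 => ⟨⟨?_, ?_⟩,
    h2 n hn h3⟩, ?_⟩
  · exact Nat.sInf_mem (s := {M : ℕ | ThresholdProp n M}) ⟨_, thresholdProp_linear n hn h3⟩
  · intro M hM
    exact Nat.sInf_le hM
  · rw [Asymptotics.isLittleO_iff]
    intro ε hε
    obtain ⟨K, hK⟩ := exists_nat_gt (61 / ε)
    filter_upwards [Filter.eventually_ge_atTop K] with k hk
    have h4 := h2 (2 * k + 3) ⟨k + 1, by ring⟩ (by omega)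
    have h5 : (g (2 * k + 3) : ℝ) ≤ 61 * ((2 * k + 3 : ℕ) : ℝ) := by
      have : g (2 * k + 3) ≤ 61 * (2 * k + 3) := by omega
      exact_mod_cast this
    have h6 : 61 / ε ≤ ((2 * k + 3 : ℕ) : ℝ) := by
      refine hK.le.trans ?_
      exact_mod_cast (by omega : K ≤ 2 * k + 3)
    have h7 : 61 ≤ ε * ((2 * k + 3 : ℕ) : ℝ) := by
      rw [div_le_iff₀ hε] at h6
      linarith
    have h8 : (0 : ℝ) ≤ ((2 * k + 3 : ℕ) : ℝ) := Nat.cast_nonneg _
    rw [Real.norm_of_nonneg (Nat.cast_nonneg _), Real.norm_of_nonneg (by positivity)]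
    nlinarith

end Pool.Agent.Results.MP_e07b63_co.LinearBound
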